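import Pool.Agent.Q25.NCC.Lem

/-!
# Project NCC (helper136), jobs EXI, MO3, UNI
-/

set_option autoImplicit false

open Finset Polynomial

namespace Pool.Agent.Q25.NCC

open Pool.Agent.Q136.RNC Pool.Agent.Q136.NCC

section

variable {F : Type} [Field F] {k : ℕ}

theorem nrc_ne (hk : 1 ≤ k) (t : Option F) : nrc k t ≠ 0 := by
  intro h
  cases t with
  | none =>
    have := congrFun h ⟨k - 1, by omega⟩
    simp only [nrc, Pi.zero_apply, Nat.sub_add_cancel hk, if_true] at this
    exact one_ne_zero this
  | some s =>
    have := congrFun h ⟨0, by omega⟩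
    simp only [nrc, Pi.zero_apply, pow_zero] at this
    exact one_ne_zero this

/-- the point `0` of the curve in terms of the point `∞` -/
theorem inf0 (hk : 1 ≤ k) (s u : Fin k → F) (hs : ∀ j, s j ≠ 0)
    (hb : LinearIndependent F (fun j => nrc k (some (s j))))
    (hu : nrc k none = ∑ j, u j • nrc k (some (s j))) :
    ∃ T : F, T ≠ 0 ∧ nrc k (some (0 : F)) = ∑ j, (T * u j / s j) • nrc k (some (s j)) := by
  have hc : ∀ i : Fin k, ∑ j, u j * s j ^ (i : ℕ) = if (i : ℕ) + 1 = k then 1 else 0 := by
    intro i
    have := congrFun hu i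
    simp only [nrc, Finset.sum_apply, Pi.smul_apply, smul_eq_mul] at this
    exact this.symm
  set W : F := ∑ j, u j / s j with hW
  have hsum : ∑ j, (u j / s j) • nrc k (some (s j)) = W • nrc k (some (0 : F)) := by
    ext i
    simp only [nrc, Finset.sum_apply, Pi.smul_apply, smul_eq_mul]
    rcases Nat.eq_zero_or_pos (i : ℕ) with hi | hi
    · rw [hi]
      simp [hW]
    · rw [zero_pow hi.ne', mul_zero]
      have hlt := i.2
      have h1 := hc ⟨(i : ℕ) - 1, by omega⟩
      rw [if_neg (by simp only; omega)] at h1
      rw [← h1]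
      refine sum_congr rfl fun j _ => ?_
      simp only
      obtain ⟨m, hm⟩ : ∃ m, (i : ℕ) = m + 1 := ⟨(i : ℕ) - 1, by omega⟩
      rw [hm, Nat.add_sub_cancel, pow_succ]
      have := hs j
      field_simp
  have hW0 : W ≠ 0 := by
    intro h0
    rw [h0, zero_smul] at hsum
    have h1 := Fintype.linearIndependent_iff.1 hb _ hsum
    apply nrc_ne hk (none : Option F)
    rw [hu]
    refine sum_eq_zero fun j _ => ?_
    have h2 := h1 j
    rw [div_eq_zero_iff] at h2
    rw [h2.resolve_right (hs j), zero_smul]
  refine ⟨W⁻¹, inv_ne_zero hW0, ?_⟩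
  have h2 : ∑ j, (W⁻¹ * u j / s j) • nrc k (some (s j)) =
      W⁻¹ • ∑ j, (u j / s j) • nrc k (some (s j)) := by
    rw [smul_sum]
    refine sum_congr rfl fun j _ => ?_
    rw [smul_smul, mul_div_assoc]
  rw [h2, hsum, smul_smul, inv_mul_cancel₀ hW0, one_smul]

end

theorem t_EXI : S_FRA → S_NAR → S_EXI := by
  intro hFRA hNAR F _ k v hk hv
  classical
  have hcc : Function.Injective (fun j : Fin k => j.castSucc.castSucc) :=
    (Fin.castSucc_injective _).comp (Fin.castSucc_injective _)
  obtain ⟨b, hb⟩ := arc_basis hv (fun j : Fin k => j.castSucc.castSucc) hcc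
  set p : Fin (k + 2) := (Fin.last k).castSucc with hp
  set r : Fin (k + 2) := Fin.last (k + 1) with hr
  have hgp : ∀ j : Fin k, j.castSucc.castSucc ≠ p := fun j h =>
    (Fin.castSucc_lt_last j).ne (Fin.castSucc_injective _ h)
  have hgr : ∀ j : Fin k, j.castSucc.castSucc ≠ r := fun j => (Fin.castSucc_lt_last _).ne
  have hpr : p ≠ r := (Fin.castSucc_lt_last _).ne
  set β : Fin k → F := fun j => b.repr (v p) j with hβd
  set γ : Fin k → F := fun j => b.repr (v r) j with hγd
  have eβ : v p = ∑ j, β j • v j.castSucc.castSucc := by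
    conv_lhs => rw [← b.sum_repr (v p)]
    exact sum_congr rfl fun j _ => by rw [hb]
  have eγ : v r = ∑ j, γ j • v j.castSucc.castSucc := by
    conv_lhs => rw [← b.sum_repr (v r)]
    exact sum_congr rfl fun j _ => by rw [hb]
  have hβ : ∀ j, β j ≠ 0 := arc_coord hv _ hcc p hgp β eβ
  have hγ : ∀ j, γ j ≠ 0 := arc_coord hv _ hcc r hgr γ eγ
  have hrat : ∀ i j : Fin k, i ≠ j → β i - β j / γ j * γ i ≠ 0 := by
    intro i j hij
    have h1 := arc_coord hv (Function.update (fun j : Fin k => j.castSucc.castSucc) j r) (by
      intro m n hmn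
      by_cases hm : m = j
      · subst hm
        by_cases hn : n = m
        · exact hn.symm
        · rw [Function.update_self, Function.update_of_ne hn] at hmn
          exact absurd hmn.symm (hgr n)
      · by_cases hn : n = j
        · subst hn
          rw [Function.update_self, Function.update_of_ne hm] at hmn
          exact absurd hmn (hgr m)
        · rw [Function.update_of_ne hm, Function.update_of_ne hn] at hmn
          exact hcc hmn) p (by
      intro m
      by_cases hm : m = j
      · rw [hm, Function.update_self]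
        exact hpr.symm
      · rw [Function.update_of_ne hm]
        exact hgp m) (fun l => if l = j then β j / γ j else β l - β j / γ j * γ l) (by
      have h2 : ∀ l, (if l = j then β j / γ j else β l - β j / γ j * γ l) •
          v (Function.update (fun j : Fin k => j.castSucc.castSucc) j r l) =
          (β l - β j / γ j * γ l) • v l.castSucc.castSucc +
            if l = j then (β j / γ j) • v r else 0 := by
        intro l
        by_cases hl : l = j
        · rw [hl, if_pos rfl, if_pos rfl, Function.update_self, div_mul_cancel₀ _ (hγ j), sub_self,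
            zero_smul, zero_add]
        · rw [if_neg hl, if_neg hl, Function.update_of_ne hl, add_zero]
      rw [sum_congr rfl fun l _ => h2 l, sum_add_distrib, sum_ite_eq' univ j, if_pos (mem_univ j)]
      have h3 : ∑ l, (β l - β j / γ j * γ l) • v l.castSucc.castSucc =
          v p - (β j / γ j) • v r := by
        rw [eβ, eγ, smul_sum, ← sum_sub_distrib]
        refine sum_congr rfl fun l _ => ?_
        rw [sub_smul, smul_smul]
      rw [h3, sub_add_cancel]) i
    simp only [if_neg hij] at h1
    exact h1
  set s : Fin k → F := fun j => -(β j / γ j) with hsd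
  have hs0 : ∀ j, s j ≠ 0 := fun j => neg_ne_zero.2 (div_ne_zero (hβ j) (hγ j))
  have hsi : Function.Injective s := by
    intro i j hij
    by_contra hne
    apply hrat i j hne
    have h1 : β i / γ i = β j / γ j := neg_injective hij
    rw [← h1, div_mul_cancel₀ _ (hγ i), sub_self]
  let t : Fin (k + 1) → Option F := Fin.lastCases none (fun j => some (s j))
  have ht1 : t (Fin.last k) = none := by simp [t]
  have ht2 : ∀ j : Fin k, t j.castSucc = some (s j) := by
    intro j
    simp [t]
  have hti : Function.Injective t := by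
    intro i j
    refine Fin.lastCases ?_ (fun i' => ?_) i <;> refine Fin.lastCases ?_ (fun j' => ?_) j
    · intro _
      rfl
    · intro h
      rw [ht1, ht2] at h
      exact absurd h (by simp)
    · intro h
      rw [ht1, ht2] at h
      exact absurd h (by simp)
    · intro h
      rw [ht2, ht2] at h
      rw [hsi (Option.some.inj h)]
  have hx : Arc (fun i => nrc k (t i)) := hNAR F (Fin (k + 1)) k t hti
  obtain ⟨φ, hφ⟩ := hFRA F k (fun i => nrc k (t i)) (fun i => v i.castSucc) hx
    (arc_comp hv Fin.castSucc (Fin.castSucc_injective _))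
  have hφj : ∀ j : Fin k, ∃ c : F, c ≠ 0 ∧ v j.castSucc.castSucc = c • φ (nrc k (some (s j))) := by
    intro j
    obtain ⟨c, hc, h⟩ := hφ j.castSucc
    simp only [ht2] at h
    exact ⟨c, hc, h⟩
  obtain ⟨c, hc, hcp⟩ := hφ (Fin.last k)
  simp only [ht1] at hcp
  choose d hd hdj using hφj
  obtain ⟨b', hb'⟩ := arc_basis hx Fin.castSucc (Fin.castSucc_injective k)
  set u : Fin k → F := fun j => b'.repr (nrc k none) j with hud
  have eu : nrc k none = ∑ j, u j • nrc k (some (s j)) := by
    conv_lhs => rw [← b'.sum_repr (nrc k none)]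
    exact sum_congr rfl fun j _ => by rw [hb', ht2]
  have hli : LinearIndependent F (fun j => nrc k (some (s j))) := by
    have := b'.linearIndependent
    have h2 : (b' : Fin k → Fin k → F) = fun j => nrc k (some (s j)) := by
      funext j
      rw [hb', ht2]
    rwa [h2] at this
  obtain ⟨T, hT, h0⟩ := inf0 (by omega) s u hs0 hli eu
  have hrel : ∀ j, β j = c * u j * (d j)⁻¹ := by
    have : β = fun j => c * u j * (d j)⁻¹ := by
      apply uniq b
      have e1 : ∑ j, β j • b j = v p := by
        rw [eβ]
        exact sum_congr rfl fun j _ => by rw [hb]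
      rw [e1, hcp, eu, map_sum, smul_sum]
      refine sum_congr rfl fun j _ => ?_
      rw [map_smul, hb, hdj j, smul_smul, smul_smul, mul_assoc (c * u j),
        inv_mul_cancel₀ (hd j), mul_one]
    intro j
    exact congrFun this j
  refine ⟨φ, fun i => ?_⟩
  refine Fin.lastCases ?_ (fun i' => ?_) i
  · refine ⟨some 0, -(c / T), neg_ne_zero.2 (div_ne_zero hc hT), ?_⟩
    rw [h0, map_sum, smul_sum]
    change v r = _
    rw [eγ]
    refine sum_congr rfl fun j _ => ?_
    rw [map_smul, smul_smul]
    have e3 := hdj j
    rw [e3, smul_smul]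
    congr 1
    have h4 := hrel j
    have h5 := hd j
    have h6 := hγ j
    have h7 := hβ j
    have h8 : u j = β j * d j / c := by
      rw [h4]
      field_simp
    rw [h8, hsd]
    simp only
    field_simp
  · refine Fin.lastCases ?_ (fun j => ?_) i'
    · exact ⟨none, c, hc, hcp⟩
    · exact ⟨some (s j), d j, hd j, hdj j⟩

end Pool.Agent.Q25.NCC
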