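import Pool.Agent.Q25.NCC.EXI

/-!
# Project NCC (helper136), job MO3
-/

set_option autoImplicit false

open Finset Polynomial

namespace Pool.Agent.Q25.NCC

open Pool.Agent.Q136.RNC Pool.Agent.Q136.NCC

section

variable {F : Type} [Field F] {k : ℕ}

/-- the diagonal map -/
def dg (k : ℕ) (α : F) : (Fin k → F) →ₗ[F] (Fin k → F) :=
  LinearMap.pi fun i => α ^ (i : ℕ) • LinearMap.proj i

theorem dg_some (α s : F) : dg k α (nrc k (some s)) = nrc k (some (α * s)) := by
  ext i
  simp [dg, nrc, mul_pow]

theorem dg_none (hk : 1 ≤ k) (α : F) : dg k α (nrc k none) = α ^ (k - 1) • nrc k none := by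
  ext i
  simp only [dg, nrc, LinearMap.pi_apply, LinearMap.smul_apply, LinearMap.proj_apply, smul_eq_mul,
    Pi.smul_apply, mul_ite, mul_one, mul_zero]
  by_cases h : (i : ℕ) + 1 = k
  · rw [if_pos h, if_pos h]
    congr 1
    omega
  · rw [if_neg h, if_neg h]

end

theorem t_MO3 : S_NAR → S_MO3 := by
  intro hNAR F _ _ ι _ k t t' Φ i₀ i₁ hk hcard hti ht'i h0 h0' h1 h1' hΦ
  classical
  -- the other indices
  have h01 : i₀ ≠ i₁ := by
    intro h
    rw [h, h1] at h0
    exact absurd h0 (by simp)
  obtain ⟨g0⟩ : Nonempty (Fin k ↪ {i : ι // i ≠ i₀ ∧ i ≠ i₁}) := by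
    rw [Function.Embedding.nonempty_iff_card_le, Fintype.card_fin, Fintype.card_subtype]
    have h2 : (univ.filter fun i : ι => i ≠ i₀ ∧ i ≠ i₁) = univ \ {i₀, i₁} := by
      ext i
      simp
    rw [h2, card_sdiff_of_subset (subset_univ _), card_univ, card_pair h01]
    omega
  set g : Fin k → ι := fun j => (g0 j : ι) with hg
  have hgi : Function.Injective g := Subtype.val_injective.comp g0.injective
  have hg0 : ∀ j, g j ≠ i₀ := fun j => (g0 j).2.1
  have hg1 : ∀ j, g j ≠ i₁ := fun j => (g0 j).2.2
  have hex : ∀ (s : ι → Option F), Function.Injective s → s i₀ = none → s i₁ = some 0 →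
      ∃ x : Fin k → F, Function.Injective x ∧ (∀ j, x j ≠ 0) ∧ ∀ j, s (g j) = some (x j) := by
    intro s hs hs0 hs1
    have : ∀ j, ∃ x : F, s (g j) = some x := by
      intro j
      rw [← Option.ne_none_iff_exists']
      intro h
      exact hg0 j (hs (h.trans hs0.symm))
    choose x hx using this
    refine ⟨x, ?_, ?_, hx⟩
    · intro i j hij
      apply hgi
      apply hs
      rw [hx, hx, hij]
    · intro j h
      apply hg1 j
      apply hs
      rw [hx, h, hs1]
  obtain ⟨x, hxi, hx0, hx⟩ := hex t hti h0 h1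
  obtain ⟨x', hx'i, hx'0, hx'⟩ := hex t' ht'i h0' h1'
  have hA := hNAR F ι k t hti
  have hA' := hNAR F ι k t' ht'i
  obtain ⟨b, hb⟩ := arc_basis hA g hgi
  obtain ⟨b', hb'⟩ := arc_basis hA' g hgi
  simp only [hx] at hb
  simp only [hx'] at hb'
  set u : Fin k → F := fun j => b.repr (nrc k none) j with hud
  set u' : Fin k → F := fun j => b'.repr (nrc k none) j with hu'd
  have eu : nrc k none = ∑ j, u j • nrc k (some (x j)) := by
    conv_lhs => rw [← b.sum_repr (nrc k none)]
    exact sum_congr rfl fun j _ => by rw [hb]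
  have eu' : nrc k none = ∑ j, u' j • nrc k (some (x' j)) := by
    conv_lhs => rw [← b'.sum_repr (nrc k none)]
    exact sum_congr rfl fun j _ => by rw [hb']
  have hu : ∀ j, u j ≠ 0 := by
    apply arc_coord hA g hgi i₀ hg0 u
    simp only [h0, hx]
    exact eu
  have hu' : ∀ j, u' j ≠ 0 := by
    apply arc_coord hA' g hgi i₀ hg0 u'
    simp only [h0', hx']
    exact eu'
  have hli : LinearIndependent F (fun j => nrc k (some (x j))) := by
    have := b.linearIndependent
    have h2 : (b : Fin k → Fin k → F) = fun j => nrc k (some (x j)) := funext hb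
    rwa [h2] at this
  have hli' : LinearIndependent F (fun j => nrc k (some (x' j))) := by
    have := b'.linearIndependent
    have h2 : (b' : Fin k → Fin k → F) = fun j => nrc k (some (x' j)) := funext hb'
    rwa [h2] at this
  obtain ⟨T, hT, e0⟩ := inf0 hk x u hx0 hli eu
  obtain ⟨T', hT', e0'⟩ := inf0 hk x' u' hx'0 hli' eu'
  obtain ⟨c0, hc0, hΦ0⟩ := hΦ i₁
  obtain ⟨ci, hci, hΦi⟩ := hΦ i₀
  rw [h1, h1'] at hΦ0
  rw [h0, h0'] at hΦi
  have hΦj : ∀ j, ∃ c : F, c ≠ 0 ∧ Φ (nrc k (some (x j))) = c • nrc k (some (x' j)) := by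
    intro j
    obtain ⟨c, hc, h⟩ := hΦ (g j)
    rw [hx, hx'] at h
    exact ⟨c, hc, h⟩
  choose c hc hcj using hΦj
  -- the first relation
  have r1 : ∀ j, u j * c j = ci * u' j := by
    have : (fun j => u j * c j) = fun j => ci * u' j := by
      apply uniq b'
      have e1 : ∑ j, (u j * c j) • b' j = Φ (nrc k none) := by
        rw [eu, map_sum]
        refine sum_congr rfl fun j _ => ?_
        rw [map_smul, hcj, hb', smul_smul]
      have e2 : ∑ j, (ci * u' j) • b' j = ci • nrc k none := by
        conv_rhs => rw [eu', smul_sum]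
        refine sum_congr rfl fun j _ => ?_
        rw [hb', smul_smul]
      rw [e1, e2, hΦi]
    exact fun j => congrFun this j
  have r2 : ∀ j, T * u j / x j * c j = c0 * (T' * u' j / x' j) := by
    have : (fun j => T * u j / x j * c j) = fun j => c0 * (T' * u' j / x' j) := by
      apply uniq b'
      have e1 : ∑ j, (T * u j / x j * c j) • b' j = Φ (nrc k (some 0)) := by
        rw [e0, map_sum]
        refine sum_congr rfl fun j _ => ?_
        rw [map_smul, hcj, hb', smul_smul]
      have e2 : ∑ j, (c0 * (T' * u' j / x' j)) • b' j = c0 • nrc k (some 0) := by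
        conv_rhs => rw [e0', smul_sum]
        refine sum_congr rfl fun j _ => ?_
        rw [hb', smul_smul]
      rw [e1, e2, hΦ0]
    exact fun j => congrFun this j
  set α : F := c0 * T' / (T * ci) with hα
  have hα0 : α ≠ 0 := div_ne_zero (mul_ne_zero hc0 hT') (mul_ne_zero hT hci)
  have hxα : ∀ j, x' j = α * x j := by
    intro j
    have h3 := r1 j
    have h4 := r2 j
    have h5 : T * u j / x j * c j = T / x j * (u j * c j) := by ring
    rw [h5, h3] at h4
    have h6 := hx0 j
    have h7 := hx'0 j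
    have h8 := hu' j
    rw [hα]
    field_simp at h4 ⊢
    linear_combination h4
  refine ⟨α, hα0, ?_⟩
  -- `Φ` is a multiple of the diagonal map
  set e : F := ci * (α ^ (k - 1))⁻¹ with he
  have hαk : α ^ (k - 1) ≠ 0 := pow_ne_zero _ hα0
  have hce : ∀ j, c j = e := by
    have : (fun j => u j * c j) = fun j => u j * e := by
      apply uniq b'
      have e1 : ∑ j, (u j * c j) • b' j = Φ (nrc k none) := by
        rw [eu, map_sum]
        refine sum_congr rfl fun j _ => ?_
        rw [map_smul, hcj, hb', smul_smul]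
      have e2 : ∑ j, (u j * e) • b' j = e • dg k α (nrc k none) := by
        conv_rhs => rw [eu, map_sum, smul_sum]
        refine sum_congr rfl fun j _ => ?_
        rw [hb', map_smul, dg_some, ← hxα, smul_smul, mul_comm]
      rw [e1, e2, dg_none hk, smul_smul, hΦi, he, mul_assoc, inv_mul_cancel₀ hαk, mul_one]
    intro j
    exact mul_left_cancel₀ (hu j) (congrFun this j)
  have hΦD : (Φ : (Fin k → F) →ₗ[F] (Fin k → F)) = e • dg k α := by
    apply b.ext
    intro j
    rw [hb, LinearMap.smul_apply, dg_some, ← hxα, ← hce j]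
    exact hcj j
  have he0 : e ≠ 0 := mul_ne_zero hci (inv_ne_zero hαk)
  intro s
  have h9 : ∀ y, Φ y = e • dg k α y := fun y => by
    have := congrArg (fun f : (Fin k → F) →ₗ[F] (Fin k → F) => f y) hΦD
    exact this
  cases s with
  | none =>
    refine ⟨e * α ^ (k - 1), mul_ne_zero he0 hαk, ?_⟩
    rw [h9, dg_none hk, smul_smul]
    simp [mo]
  | some s =>
    refine ⟨e, he0, ?_⟩
    rw [h9, dg_some]
    simp [mo]

end Pool.Agent.Q25.NCC
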