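import Pool.Agent.Q25.NCC.Lem

/-!
# Project NCC (helper136), job UNI
-/

set_option autoImplicit false

open Finset Polynomial

namespace Pool.Agent.Q25.NCC

open Pool.Agent.Q136.RNC Pool.Agent.Q136.NCC

theorem t_UNI : S_MO4 → S_UNI := by
  intro hMO4 F _ _ ι _ k v hk hkq hcard hv φ φ' h1 h2
  classical
  have key : ∀ φ φ' : (Fin k → F) ≃ₗ[F] (Fin k → F), (∀ i, v i ∈ cone φ) → (∀ i, v i ∈ cone φ') →
      cone φ ⊆ cone φ' := by
    intro φ φ' h1 h2
    choose t c hc ht using h1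
    choose t' c' hc' ht' using h2
    have hti : ∀ (ψ : (Fin k → F) ≃ₗ[F] (Fin k → F)) (s : ι → Option F) (e : ι → F),
        (∀ i, e i ≠ 0) → (∀ i, v i = e i • ψ (nrc k (s i))) → Function.Injective s := by
      intro ψ s e he hs i j hij
      by_contra hne
      refine arc_ne hv hk (by omega) hne (e i * (e j)⁻¹) ?_
      rw [hs i, hs j, hij, smul_smul, mul_assoc, inv_mul_cancel₀ (he j), mul_one]
    obtain ⟨a, b, m, d, _, hmo⟩ := hMO4 F ι k t t' (φ.trans φ'.symm) (by omega) hkq hcard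
      (hti φ t c hc ht) (hti φ' t' c' hc' ht') (by
        intro i
        refine ⟨(c i)⁻¹ * c' i, mul_ne_zero (inv_ne_zero (hc i)) (hc' i), ?_⟩
        have e1 : φ (nrc k (t i)) = ((c i)⁻¹ * c' i) • φ' (nrc k (t' i)) := by
          rw [mul_smul, ← ht' i, ht i, smul_smul, inv_mul_cancel₀ (hc i), one_smul]
        rw [LinearEquiv.trans_apply, e1, map_smul, LinearEquiv.symm_apply_apply])
    rintro x ⟨s, e, he, hx⟩
    obtain ⟨f, hf, hs⟩ := hmo s
    refine ⟨mo a b m d s, e * f, mul_ne_zero he hf, ?_⟩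
    rw [LinearEquiv.trans_apply] at hs
    have e2 : φ (nrc k s) = f • φ' (nrc k (mo a b m d s)) := by
      have := congrArg φ' hs
      rwa [LinearEquiv.apply_symm_apply, map_smul] at this
    rw [hx, e2, smul_smul]
  exact Set.Subset.antisymm (key φ φ' h1 h2) (key φ' φ h2 h1)

end Pool.Agent.Q25.NCC
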