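import Pool.Agent.Q136.NCC.Stm

/-!
# Project NCC (helper136): lemmas about arcs, and job FRA
-/

set_option autoImplicit false

open Finset Polynomial

namespace Pool.Agent.Q25.NCC

open Pool.Agent.Q136.RNC Pool.Agent.Q136.NCC

section

variable {F : Type} [Field F] {ι κ : Type} {k : ℕ}

theorem arc_basis {x : ι → Fin k → F} (hx : Arc x) (g : Fin k → ι) (hg : Function.Injective g) :
    ∃ b : Module.Basis (Fin k) F (Fin k → F), ∀ j, b j = x (g j) := by
  classical
  have h1 := hx (univ.map ⟨g, hg⟩) (by simp)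
  have h2 : LinearIndependent F (fun j : Fin k => x (g j)) := by
    have := h1.comp (fun j : Fin k => (⟨g j, by simp⟩ : {i // i ∈ univ.map ⟨g, hg⟩})) (by
      intro a b hab
      exact hg (congrArg Subtype.val hab))
    exact this
  have h3 := h2.span_eq_top_of_card_eq_finrank' (by simp)
  exact ⟨Module.Basis.mk h2 h3.ge, fun j => Module.Basis.mk_apply _ _ _⟩

theorem arc_comp {x : ι → Fin k → F} (hx : Arc x) (f : κ → ι) (hf : Function.Injective f) :
    Arc (fun i => x (f i)) := by
  classical
  intro S hS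
  have h1 := hx (S.map ⟨f, hf⟩) (by rw [card_map, hS])
  have := h1.comp (fun j : S => (⟨f j, by simp⟩ : {i // i ∈ S.map ⟨f, hf⟩})) (by
    intro a b hab
    exact Subtype.ext (hf (congrArg Subtype.val hab)))
  exact this

theorem uniq (b : Module.Basis (Fin k) F (Fin k → F)) {a a' : Fin k → F}
    (h : ∑ j, a j • b j = ∑ j, a' j • b j) : a = a' := by
  have h1 := congrArg (fun z => (b.repr z : Fin k → F)) h
  simp only [Module.Basis.repr_sum_self] at h1
  exact h1

theorem arc_coord {x : ι → Fin k → F} (hx : Arc x) (g : Fin k → ι) (hg : Function.Injective g)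
    (m : ι) (hm : ∀ j, g j ≠ m) (a : Fin k → F) (ha : x m = ∑ j, a j • x (g j)) (j : Fin k) :
    a j ≠ 0 := by
  intro h0
  obtain ⟨b, hb⟩ := arc_basis hx (Function.update g j m) (by
    intro p q hpq
    by_cases hp : p = j
    · subst hp
      by_cases hq : q = p
      · exact hq.symm
      · rw [Function.update_self, Function.update_of_ne hq] at hpq
        exact absurd hpq.symm (hm q)
    · by_cases hq : q = j
      · subst hq
        rw [Function.update_self, Function.update_of_ne hp] at hpq
        exact absurd hpq (hm p)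
      · rw [Function.update_of_ne hp, Function.update_of_ne hq] at hpq
        exact hg hpq)
  have h1 : ∑ l, a l • b l = ∑ l, (if l = j then (1 : F) else 0) • b l := by
    have e1 : ∑ l, (if l = j then (1 : F) else 0) • b l = b j := by
      rw [sum_eq_single j]
      · rw [if_pos rfl, one_smul]
      · intro l _ hl
        rw [if_neg hl, zero_smul]
      · intro h
        exact absurd (mem_univ _) h
    rw [e1, hb, Function.update_self, ha]
    refine sum_congr rfl fun l _ => ?_
    by_cases hl : l = j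
    · rw [hl, h0, zero_smul, zero_smul]
    · rw [hb, Function.update_of_ne hl]
  have h2 := congrFun (uniq b h1) j
  rw [if_pos rfl, h0] at h2
  exact zero_ne_one h2

theorem li_ne {M σ : Type} [AddCommGroup M] [Module F M] {y : σ → M} (hy : LinearIndependent F y)
    {i j : σ} (hij : i ≠ j) (c : F) : y i ≠ c • y j := by
  classical
  intro h
  have h1 := linearIndependent_iff'.1 hy {i, j} (fun l => if l = i then 1 else -c) (by
    rw [sum_pair hij, if_pos rfl, if_neg hij.symm, one_smul, h, ← add_smul, add_neg_cancel,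
      zero_smul]) i (by simp)
  rw [if_pos rfl] at h1
  exact one_ne_zero h1

theorem arc_ne [Fintype ι] {x : ι → Fin k → F} (hx : Arc x) (hk : 2 ≤ k) (hc : k ≤ Fintype.card ι)
    {i j : ι} (hij : i ≠ j) (c : F) : x i ≠ c • x j := by
  classical
  obtain ⟨S, hS1, hS2⟩ := exists_subsuperset_card_eq (s := {i, j}) (t := (univ : Finset ι))
    (n := k) (subset_univ _) (by rw [card_pair hij]; exact hk) (by rw [card_univ]; exact hc)
  have h1 := hx S hS2.2
  have hi : i ∈ S := hS1 (by simp)
  have hj : j ∈ S := hS1 (by simp)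
  exact li_ne h1 (i := ⟨i, hi⟩) (j := ⟨j, hj⟩) (fun h => hij (congrArg Subtype.val h)) c

theorem t_FRA' (x v : Fin (k + 1) → Fin k → F) (hx : Arc x) (hv : Arc v) :
    ∃ φ : (Fin k → F) ≃ₗ[F] (Fin k → F), ∀ i, Pr (v i) (φ (x i)) := by
  obtain ⟨b, hb⟩ := arc_basis hx Fin.castSucc (Fin.castSucc_injective k)
  obtain ⟨b', hb'⟩ := arc_basis hv Fin.castSucc (Fin.castSucc_injective k)
  have e1 : x (Fin.last k) = ∑ j, b.repr (x (Fin.last k)) j • x j.castSucc := by
    conv_lhs => rw [← b.sum_repr (x (Fin.last k))]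
    exact sum_congr rfl fun j _ => by rw [hb]
  have e2 : v (Fin.last k) = ∑ j, b'.repr (v (Fin.last k)) j • v j.castSucc := by
    conv_lhs => rw [← b'.sum_repr (v (Fin.last k))]
    exact sum_congr rfl fun j _ => by rw [hb']
  have hα := arc_coord hx Fin.castSucc (Fin.castSucc_injective k) (Fin.last k)
    (fun j => (Fin.castSucc_lt_last j).ne) (fun j => b.repr (x (Fin.last k)) j) e1
  have hβ := arc_coord hv Fin.castSucc (Fin.castSucc_injective k) (Fin.last k)
    (fun j => (Fin.castSucc_lt_last j).ne) (fun j => b'.repr (v (Fin.last k)) j) e2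
  set α : Fin k → F := fun j => b.repr (x (Fin.last k)) j with hαd
  set β : Fin k → F := fun j => b'.repr (v (Fin.last k)) j with hβd
  have hα' : ∀ j, α j ≠ 0 := hα
  have hβ' : ∀ j, β j ≠ 0 := hβ
  let w : Fin k → Fˣ := fun j => Units.mk0 (β j / α j) (div_ne_zero (hβ' j) (hα' j))
  let φ : (Fin k → F) ≃ₗ[F] (Fin k → F) := b.equiv (b'.unitsSMul w) (Equiv.refl _)
  have hφ : ∀ j, φ (x j.castSucc) = (β j / α j) • v j.castSucc := by
    intro j
    rw [← hb j, Module.Basis.equiv_apply, Module.Basis.unitsSMul_apply, Equiv.refl_apply, hb']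
    rfl
  refine ⟨φ, fun i => ?_⟩
  refine Fin.lastCases ?_ (fun j => ?_) i
  · refine ⟨1, one_ne_zero, ?_⟩
    rw [one_smul]
    change v (Fin.last k) = _
    have e1' : x (Fin.last k) = ∑ j, α j • x j.castSucc := e1
    have e2' : v (Fin.last k) = ∑ j, β j • v j.castSucc := e2
    rw [e1', map_sum, e2']
    refine sum_congr rfl fun j _ => ?_
    rw [map_smul, hφ, smul_smul, mul_div_cancel₀ _ (hα' j)]
  · refine ⟨(β j / α j)⁻¹, inv_ne_zero (div_ne_zero (hβ' j) (hα' j)), ?_⟩
    rw [hφ, smul_smul, inv_mul_cancel₀ (div_ne_zero (hβ' j) (hα' j)), one_smul]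

end

theorem t_FRA : S_FRA := by
  intro F _ k x v hx hv
  exact t_FRA' x v hx hv

end Pool.Agent.Q25.NCC
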